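import Pool.Agent.H7.HZ.Stmts

/-!
Board hz12 (MP_fd41b2_co), row EDU: edges of a set with a nearly complete multipartite structure.
-/

set_option autoImplicit false

open Finset Polynomial

namespace Pool.HZ7

open Pool.Agent.H23.KT Pool.Agent.H46.KW Pool.KQ Pool.GT7 Pool.GU7

/-- The first three coefficients. -/
private def edu_Q (F : ℕ[X]) (S T : ℕ) : Prop :=
  F.coeff 0 = 1 ∧ F.coeff 1 = S ∧ 2 * F.coeff 2 + T = S ^ 2

private lemma edu_Q_mul {F F' : ℕ[X]} {S T S' T' : ℕ} (h : edu_Q F S T) (h' : edu_Q F' S' T') :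
    edu_Q (F * F') (S + S') (T + T') := by
  obtain ⟨h0, h1, h2⟩ := h
  obtain ⟨g0, g1, g2⟩ := h'
  refine ⟨?_, ?_, ?_⟩
  · rw [mul_coeff_zero, h0, g0, one_mul]
  · rw [mul_coeff_one, h0, h1, g0, g1]
    ring
  · have e : (F * F').coeff 2 = F.coeff 0 * F'.coeff 2 + F.coeff 1 * F'.coeff 1 +
        F.coeff 2 * F'.coeff 0 := by
      rw [coeff_mul, Finset.Nat.sum_antidiagonal_eq_sum_range_succ_mk, Finset.sum_range_succ,
        Finset.sum_range_succ, Finset.sum_range_one]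
    rw [e, h0, h1, g0, g1]
    nlinarith

private lemma edu_Q_one : edu_Q 1 0 0 := by
  refine ⟨?_, ?_, ?_⟩ <;> simp [coeff_one]

private lemma edu_Q_lin (a : ℕ) : edu_Q (1 + C a * X) a (a ^ 2) := by
  refine ⟨?_, ?_, ?_⟩ <;> simp [coeff_one, coeff_X]

private lemma edu_Q_pow {F : ℕ[X]} {S T : ℕ} (h : edu_Q F S T) (k : ℕ) :
    edu_Q (F ^ k) (k * S) (k * T) := by
  induction k with
  | zero => simpa using edu_Q_one
  | succ k ih =>
    rw [pow_succ, Nat.succ_mul, Nat.succ_mul]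
    exact edu_Q_mul ih h

private lemma edu_Q_prod {ι : Type} (s : Finset ι) (n : ι → ℕ) :
    edu_Q (∏ i ∈ s, (1 + C (n i) * X)) (∑ i ∈ s, n i) (∑ i ∈ s, n i ^ 2) := by
  classical
  induction s using Finset.induction_on with
  | empty => simpa using edu_Q_one
  | insert i s hi ih =>
    rw [Finset.prod_insert hi, Finset.sum_insert hi, Finset.sum_insert hi]
    exact edu_Q_mul (edu_Q_lin _) ih

private lemma edu_es {b : ℕ} (n : Fin b → ℕ) :
    2 * es n 2 + ∑ i, n i ^ 2 = (∑ i, n i) ^ 2 :=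
  (edu_Q_prod univ n).2.2

private lemma edu_TT (b a s : ℕ) :
    2 * TT b 2 a s + (s * (a + 1) ^ 2 + (b - s) * a ^ 2) =
      (s * (a + 1) + (b - s) * a) ^ 2 := by
  have h := edu_Q_mul (edu_Q_pow (edu_Q_lin (a + 1)) s) (edu_Q_pow (edu_Q_lin a) (b - s))
  exact h.2.2

private lemma edu_cross {b : ℕ} (n : Fin b → ℕ) :
    ∑ i, ∑ k ∈ univ.erase i, n i * n k = 2 * es n 2 := by
  have h := edu_es n
  have h1 : ∑ i, ∑ k ∈ univ.erase i, n i * n k + ∑ i, n i ^ 2 = (∑ i, n i) ^ 2 := by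
    rw [← Finset.sum_add_distrib, sq, Finset.sum_mul]
    refine Finset.sum_congr rfl fun i _ => ?_
    rw [sq, Finset.sum_erase_add _ _ (mem_univ i), Finset.mul_sum]
  omega

private lemma edu_swap {V : Type} (G : SimpleGraph V) (X U : Finset V) :
    ∑ x ∈ X, (nb G U x).card = ∑ z ∈ U, (nb G X z).card := by
  classical
  have h1 : ∀ x, (nb G U x).card = ∑ z ∈ U, if G.Adj x z then 1 else 0 := by
    intro x
    unfold nb
    rw [card_filter]
  have h2 : ∀ z, (nb G X z).card = ∑ x ∈ X, if G.Adj x z then 1 else 0 := by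
    intro z
    unfold nb
    rw [card_filter]
    refine Finset.sum_congr rfl fun x _ => ?_
    simp only [G.adj_comm z x]
  rw [Finset.sum_congr rfl fun x _ => h1 x, Finset.sum_congr rfl fun z _ => h2 z,
    Finset.sum_comm]

private lemma edu_nn {V : Type} (G : SimpleGraph V) (X : Finset V) (x : V) :
    (nb G X x).card + (non G X x).card = X.card := by
  classical
  have h := Finset.card_filter_add_card_filter_not (s := X) (fun y => G.Adj x y)
  rw [← h]
  unfold nb non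
  rfl

private lemma edu_inside {V : Type} [DecidableEq V] (G : SimpleGraph V) (p : ℕ)
    (P : Fin (p + 3) → Finset V) (hP : Par G P) :
    ∑ x ∈ un P, (nb G (un P) x).card + tot G P ≤ 2 * es (sz P) 2 := by
  rw [← edu_cross]
  have hdis : Set.PairwiseDisjoint (↑(univ : Finset (Fin (p + 3)))) P := by
    intro i _ k _ hik
    exact hP.dis i k hik
  have h1 : ∑ x ∈ un P, (nb G (un P) x).card = ∑ i, ∑ x ∈ P i, (nb G (un P) x).card := by
    unfold un
    rw [Finset.sum_biUnion hdis]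
  have h2 : ∀ i, ∀ x ∈ P i, (nb G (un P) x).card ≤
      ∑ k ∈ univ.erase i, (nb G (P k) x).card := by
    intro i x hx
    refine le_trans (card_le_card (t := (univ.erase i).biUnion fun k => nb G (P k) x) ?_)
      card_biUnion_le
    intro y hy
    rw [mem_nb] at hy
    obtain ⟨hy1, hy2⟩ := hy
    unfold un at hy1
    rw [mem_biUnion] at hy1
    obtain ⟨k, _, hk⟩ := hy1
    rw [mem_biUnion]
    refine ⟨k, mem_erase.2 ⟨?_, mem_univ k⟩, (mem_nb G).2 ⟨hk, hy2⟩⟩
    rintro rfl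
    exact hP.ind k x hx y hk hy2
  have h3 : tot G P = ∑ i, ∑ x ∈ P i, ∑ k ∈ univ.erase i, (non G (P k) x).card := by
    unfold tot
    refine Finset.sum_congr rfl fun i _ => ?_
    rw [Finset.sum_comm]
  rw [h1, h3, ← Finset.sum_add_distrib]
  refine Finset.sum_le_sum fun i _ => ?_
  rw [← Finset.sum_add_distrib]
  calc ∑ x ∈ P i, ((nb G (un P) x).card + ∑ k ∈ univ.erase i, (non G (P k) x).card) ≤
      ∑ x ∈ P i, ∑ k ∈ univ.erase i, (P k).card := by
        refine Finset.sum_le_sum fun x hx => ?_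
        refine (Nat.add_le_add_right (h2 i x hx) _).trans ?_
        rw [← Finset.sum_add_distrib]
        refine le_of_eq (Finset.sum_congr rfl fun k _ => edu_nn G (P k) x)
    _ = ∑ k ∈ univ.erase i, sz P i * sz P k := by
        rw [Finset.sum_const, smul_eq_mul, Finset.mul_sum]
        rfl

private lemma edu_one {V : Type} [DecidableEq V] (G : SimpleGraph V) (p : ℕ) (W : Finset V)
    (P : Fin (p + 3) → Finset V) (U : Finset V) (hP : Par G P) (hd : ∀ i, Disjoint (P i) U)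
    (hc : ∀ u, u ∈ W ↔ u ∈ U ∨ ∃ i, u ∈ P i) :
    2 * kc G W 2 + tot G P ≤
      2 * es (sz P) 2 + 2 * ∑ z ∈ U, (nb G (un P) z).card + U.card ^ 2 := by
  have hun : ∀ u, u ∈ un P ↔ ∃ i, u ∈ P i := by
    intro u
    unfold un
    simp
  have hW : W = un P ∪ U := by
    ext u
    rw [hc, mem_union, hun]
    tauto
  have hdis : Disjoint (un P) U := by
    rw [Finset.disjoint_left]
    intro u hu hU
    obtain ⟨i, hi⟩ := (hun u).1 hu
    exact Finset.disjoint_left.1 (hd i) hi hU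
  have h1 : 2 * kc G W 2 ≤ ∑ v ∈ W, (nb G W v).card := by
    have := kc_sum G W 1
    rw [show (2 : ℕ) = 1 + 1 from rfl, ← this]
    exact Finset.sum_le_sum fun v _ => kc_one _
  have h2 : ∀ v, (nb G W v).card ≤ (nb G (un P) v).card + (nb G U v).card := by
    intro v
    refine le_trans (card_le_card ?_) (card_union_le _ _)
    intro y hy
    rw [mem_nb, hW, mem_union] at hy
    rw [mem_union, mem_nb, mem_nb]
    tauto
  have h3 : ∑ v ∈ W, (nb G W v).card ≤
      (∑ x ∈ un P, (nb G (un P) x).card + ∑ x ∈ un P, (nb G U x).card) +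
      (∑ z ∈ U, (nb G (un P) z).card + ∑ z ∈ U, (nb G U z).card) := by
    refine (Finset.sum_le_sum fun v _ => h2 v).trans ?_
    rw [hW, Finset.sum_union hdis, Finset.sum_add_distrib, Finset.sum_add_distrib]
  have h4 : ∑ z ∈ U, (nb G U z).card ≤ U.card ^ 2 := by
    rw [sq]
    refine (Finset.sum_le_card_nsmul U _ U.card fun z _ => card_le_card (nb_subset G U z)).trans ?_
    rw [smul_eq_mul]
  have h5 := edu_swap G (un P) U
  have h6 := edu_inside G p P hP
  omega

theorem edu_thm : EDUStmt := by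
  refine ⟨?_, ?_⟩
  · intro V _ G p W P U hP hd hc
    have h := edu_one G p W P U hP hd hc
    have h' : (2 * kc G W 2 + tot G P : ℝ) ≤
        2 * es (sz P) 2 + 2 * ∑ z ∈ U, ((nb G (un P) z).card : ℝ) + (U.card : ℝ) ^ 2 := by
      exact_mod_cast h
    nlinarith [sq_nonneg (U.card : ℝ)]
  · intro p a r x n hr hn
    have h1 : (2 * es n 2 + ∑ i, (n i : ℝ) ^ 2 : ℝ) = (∑ i, (n i : ℝ)) ^ 2 := by
      exact_mod_cast edu_es n
    have h2 : (2 * TT (p + 3) 2 a r + (r * ((a : ℝ) + 1) ^ 2 + ((p : ℝ) + 3 - r) * (a : ℝ) ^ 2) : ℝ) =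
        (r * ((a : ℝ) + 1) + ((p : ℝ) + 3 - r) * a) ^ 2 := by
      have e := edu_TT (p + 3) a r
      have e2 : (((p + 3 - r : ℕ) : ℕ) : ℝ) = (p : ℝ) + 3 - r := by
        rw [Nat.cast_sub (by omega)]
        push_cast
        ring
      rw [← e2]
      exact_mod_cast e
    have h3 : (∑ i, (n i : ℝ)) + x = ((p : ℝ) + 3) * a + r := by
      exact_mod_cast hn
    have h4 : (∑ i, (n i : ℝ)) ^ 2 ≤ ((p : ℝ) + 3) * ∑ i, (n i : ℝ) ^ 2 := by
      have := sq_sum_le_card_mul_sum_sq (s := (univ : Finset (Fin (p + 3))))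
        (f := fun i => (n i : ℝ))
      simpa using this
    set S : ℝ := ∑ i, (n i : ℝ) with hS
    set T : ℝ := ∑ i, (n i : ℝ) ^ 2 with hT
    set b : ℝ := (p : ℝ) + 3 with hb
    have hb3 : 3 ≤ b := by
      rw [hb]
      have : (0 : ℝ) ≤ p := Nat.cast_nonneg p
      linarith
    have hr0 : (0 : ℝ) ≤ r := Nat.cast_nonneg r
    have hx0 : (0 : ℝ) ≤ x := Nat.cast_nonneg x
    have ha0 : (0 : ℝ) ≤ a := Nat.cast_nonneg a
    have hrr : (r : ℝ) ≤ (r : ℝ) ^ 2 := by
      exact_mod_cast Nat.le_self_pow (by norm_num) r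
    have hSv : S = b * a + (r - x) := by linarith
    have hp2 : (p : ℝ) + 2 = b - 1 := by rw [hb]; ring
    rw [hp2]
    have h5 : b * (2 * (es n 2 : ℝ)) ≤ (b - 1) * S ^ 2 := by nlinarith
    have h6 : b * (2 * (TT (p + 3) 2 a r : ℝ)) =
        b * (b * (b - 1) * a ^ 2 + 2 * (b - 1) * r * a + r ^ 2 - r) := by
      nlinarith
    have h7 : (b - 1) * S ^ 2 + b * (2 * (x * ((b - 1) * a))) ≤
        b * (b * (b - 1) * a ^ 2 + 2 * (b - 1) * r * a + r ^ 2 - r) +
          b * (2 * ((r : ℝ) + x) ^ 2) := by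
      rw [hSv]
      have e1 : (b - 1) * (b * a + (r - x)) ^ 2 + b * (2 * (x * ((b - 1) * a))) =
          b * (b * (b - 1) * a ^ 2 + 2 * (b - 1) * r * a) + (b - 1) * ((r : ℝ) - x) ^ 2 := by
        ring
      rw [e1]
      have e2 : ((r : ℝ) - x) ^ 2 ≤ ((r : ℝ) + x) ^ 2 := by nlinarith [mul_nonneg hr0 hx0]
      have e3 : (b - 1) * ((r : ℝ) - x) ^ 2 ≤ b * ((r : ℝ) + x) ^ 2 := by
        nlinarith [sq_nonneg ((r : ℝ) - x), sq_nonneg ((r : ℝ) + x)]
      nlinarith [sq_nonneg ((r : ℝ) + x)]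
    have h8 : b * (2 * ((es n 2 : ℝ) + x * ((b - 1) * a))) ≤
        b * (2 * ((TT (p + 3) 2 a r : ℝ) + ((r : ℝ) + x) ^ 2)) := by
      calc b * (2 * ((es n 2 : ℝ) + x * ((b - 1) * a))) =
          b * (2 * (es n 2 : ℝ)) + b * (2 * (x * ((b - 1) * a))) := by ring
        _ ≤ (b - 1) * S ^ 2 + b * (2 * (x * ((b - 1) * a))) := by linarith
        _ ≤ _ := h7
        _ = b * (2 * (TT (p + 3) 2 a r : ℝ)) + b * (2 * ((r : ℝ) + x) ^ 2) := by rw [h6]
        _ = _ := by ring
    have hb0 : 0 < b := by linarith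
    have h9 := le_of_mul_le_mul_left h8 hb0
    linarith

end Pool.HZ7
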